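import Pool.Agent.J4H91.Kempe.ThreeFree

/-!
The constant `c = 1` works for `3K₁`-free graphs: if a finite graph `G` has no three pairwise
non-adjacent distinct vertices and is `k`-colourable, then any two `(k+1)`-colourings of `G` are
Kempe equivalent.

`KempeStep c c'` (from `Pool.Agent.H411R2.WSK.Defs`): the colouring `c'` arises from `c` by a single
Kempe change.
-/

set_option autoImplicit false

namespace Pool.Agent.Results.MP_de689f_co.ThreeIndependentFree

open Pool.Agent.H411R2.WSK Pool.Agent.J4H91.Kempe

theorem result : ∀ {V : Type*} [Finite V] (G : SimpleGraph V),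
    IsEmpty ((⊥ : SimpleGraph (Fin 3)) ↪g G) → ∀ k : ℕ, G.Colorable k →
      ∀ c c' : G.Coloring (Fin (k + 1)), Relation.ReflTransGen KempeStep c c' := by
  classical
  intro V _ G hG k hk c c'
  have := Fintype.ofFinite V
  -- the independence number is at most two
  have h3 : ∀ x y z : V, x ≠ y → x ≠ z → y ≠ z → G.Adj x y ∨ G.Adj x z ∨ G.Adj y z := by
    intro x y z hxy hxz hyz
    by_contra hcon
    push Not at hcon
    obtain ⟨h1, h2, h4⟩ := hcon
    refine hG.false ⟨⟨![x, y, z], ?_⟩, ?_⟩
    · intro i j hij
      fin_cases i <;> fin_cases j <;> simp_all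
    · intro i j
      have h1' : ¬ G.Adj y x := fun h => h1 h.symm
      have h2' : ¬ G.Adj z x := fun h => h2 h.symm
      have h4' : ¬ G.Adj z y := fun h => h4 h.symm
      change G.Adj (![x, y, z] i) (![x, y, z] j) ↔ (⊥ : SimpleGraph (Fin 3)).Adj i j
      fin_cases i <;> fin_cases j <;> simp_all
  obtain ⟨d0⟩ := hk
  let d : G.Coloring (Fin (k + 1)) :=
    SimpleGraph.Coloring.mk (fun v => Fin.castSucc (d0 v)) (by
      intro v w hvw h
      exact d0.valid hvw (Fin.castSucc_injective _ h))
  have hd : ∀ v, d v ≠ Fin.last k := fun v => (Fin.castSucc_lt_last (d0 v)).ne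
  exact (reach_missing h3 d (Fin.last k) hd c).trans
    (reach_symm (reach_missing h3 d (Fin.last k) hd c'))

end Pool.Agent.Results.MP_de689f_co.ThreeIndependentFree
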